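import Pool.Agent.Q39.MH.Moments
import Pool.Agent.TH181.MW.Max
import Pool.Agent.TH181.MW.Cov

set_option autoImplicit false

/-!
# The Hausdorff dimension of the set of the bad leading coefficients
-/

namespace Pool.Agent.Q39.MH

open Finset MeasureTheory
open Pool.Agent.TH181.MW (tup J)
open Pool.Agent.W928.MW (e sm e_add e_norm e_lip sm_le ev_pow ev_log)

/-! ### Partial summation -/

lemma abel_id (k : ℕ) (t t' ξ : ℝ) (M : ℕ) :
    sm k M t ξ = e ((t - t') * (M : ℝ) ^ k) * sm k M t' ξ -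
      ∑ n ∈ range M, (e ((t - t') * ((n + 1 : ℕ) : ℝ) ^ k) - e ((t - t') * (n : ℝ) ^ k)) *
        sm k n t' ξ := by
  induction M with
  | zero => simp [Pool.Agent.W928.MW.sm]
  | succ M ih =>
    have h1 : ∀ t : ℝ, sm k (M + 1) t ξ = sm k M t ξ +
        e (t * ((M + 1 : ℕ) : ℝ) ^ k + ξ * ((M + 1 : ℕ) : ℝ)) := by
      intro t
      unfold Pool.Agent.W928.MW.sm
      rw [sum_Icc_succ_top (by omega)]
    have h2 : e (t * ((M + 1 : ℕ) : ℝ) ^ k + ξ * ((M + 1 : ℕ) : ℝ)) =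
        e ((t - t') * ((M + 1 : ℕ) : ℝ) ^ k) *
          e (t' * ((M + 1 : ℕ) : ℝ) ^ k + ξ * ((M + 1 : ℕ) : ℝ)) := by
      rw [← e_add]
      congr 1
      ring
    rw [h1 t, h1 t', h2, ih, sum_range_succ]
    ring

lemma abel (k : ℕ) (hk : 1 ≤ k) (t t' ξ : ℝ) (M : ℕ) (B : ℝ) (hB : ∀ n ≤ M, ‖sm k n t' ξ‖ ≤ B) :
    ‖sm k M t ξ‖ ≤ (1 + 2 * Real.pi * |t - t'| * (M : ℝ) ^ k) * B := by
  have hB0 : 0 ≤ B := (norm_nonneg _).trans (hB 0 (Nat.zero_le _))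
  rw [abel_id k t t' ξ M]
  refine (norm_sub_le _ _).trans ?_
  have h1 : ‖e ((t - t') * (M : ℝ) ^ k) * sm k M t' ξ‖ ≤ B := by
    rw [norm_mul, e_norm, one_mul]
    exact hB M le_rfl
  have h2 : ‖∑ n ∈ range M, (e ((t - t') * ((n + 1 : ℕ) : ℝ) ^ k) - e ((t - t') * (n : ℝ) ^ k)) *
        sm k n t' ξ‖ ≤ ∑ n ∈ range M, 2 * Real.pi * |t - t'| *
          (((n + 1 : ℕ) : ℝ) ^ k - (n : ℝ) ^ k) * B := by
    refine (norm_sum_le _ _).trans (sum_le_sum fun n hn => ?_)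
    rw [norm_mul]
    have h3 : (n : ℝ) ^ k ≤ ((n + 1 : ℕ) : ℝ) ^ k := by
      apply pow_le_pow_left₀ (by positivity)
      push_cast
      linarith
    have h4 : ‖e ((t - t') * ((n + 1 : ℕ) : ℝ) ^ k) - e ((t - t') * (n : ℝ) ^ k)‖ ≤
        2 * Real.pi * |t - t'| * (((n + 1 : ℕ) : ℝ) ^ k - (n : ℝ) ^ k) := by
      refine (e_lip _ _).trans (le_of_eq ?_)
      rw [← mul_sub, abs_mul, abs_of_nonneg (sub_nonneg.2 h3)]
      ring
    have h5 : 0 ≤ 2 * Real.pi * |t - t'| * (((n + 1 : ℕ) : ℝ) ^ k - (n : ℝ) ^ k) :=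
      (norm_nonneg _).trans h4
    exact mul_le_mul h4 (hB n (by rw [mem_range] at hn; omega)) (norm_nonneg _) h5
  have h3 : ∑ n ∈ range M, 2 * Real.pi * |t - t'| *
          (((n + 1 : ℕ) : ℝ) ^ k - (n : ℝ) ^ k) * B = 2 * Real.pi * |t - t'| * (M : ℝ) ^ k * B := by
    rw [← sum_mul, ← mul_sum]
    have := Finset.sum_range_sub (fun n : ℕ => (n : ℝ) ^ k) M
    simp only [Nat.cast_zero] at this
    rw [this, zero_pow (by omega), sub_zero]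
  rw [h3] at h2
  linarith

/-! ### The covering -/

/-- bad parameters at scale `2^i` -/
def Bad (k : ℕ) (θ : ℝ) (z : ℤ) (i : ℕ) : Set ℝ :=
  {t : ℝ | t ∈ Set.Icc (z : ℝ) ((z : ℝ) + 1) ∧ ∃ M : ℕ, M ≤ 2 ^ i ∧ 2 ^ i ≤ 2 * M ∧ ∃ ξ : ℝ,
    (M : ℝ) ^ θ < ‖sm k M t ξ‖}

theorem cover (k j : ℕ) (hk : 3 ≤ k) (hj : 1 ≤ j) (hjk : j ≤ k) (θ ε' : ℝ) (hθ : 0 < θ)
    (hε' : 0 < ε') (z : ℤ) :
    ∃ i0 : ℕ, ∀ i : ℕ, i0 ≤ i → ∃ S : Finset ℝ,
      (S.card : ℝ) ≤ ((2 : ℝ) ^ i) ^ ((k : ℝ) - j + (2 ^ j + 2) * (1 - θ) + (2 ^ j + 4) * ε') ∧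
      Bad k θ z i ⊆ ⋃ x ∈ S, Set.Icc x (x + ((2 : ℝ) ^ i) ^ (-(k : ℝ))) := by
  obtain ⟨C, hC0, hC⟩ := hua k hk j hj hjk ε' hε'
  set s : ℕ := 2 ^ (j - 1) + 1 with hs
  have h2s : 2 * s = 2 ^ j + 2 := by
    have : j = (j - 1) + 1 := by omega
    rw [hs]
    conv_rhs => rw [this, pow_succ]
    ring
  obtain ⟨i1, h1⟩ := ev_log ε' hε' ((2 : ℝ) ^ θ * (1 + 2 * Real.pi))
  obtain ⟨i3, h3⟩ := ev_pow ε' hε' (((s : ℝ) + 1) * (3 * C))
  refine ⟨i1 + i3, fun i hi => ?_⟩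
  have g1 := h1 i (by omega)
  have g3 := h3 i (by omega)
  set X : ℝ := (2 : ℝ) ^ i with hX
  have hX1 : (1 : ℝ) ≤ X := one_le_pow₀ (by norm_num)
  have hX0 : (0 : ℝ) < X := by positivity
  have hNX : (((2 ^ i : ℕ) : ℕ) : ℝ) = X := by push_cast; rfl
  set μ : ℝ := X ^ (θ - ε') with hμ
  have hμ0 : 0 < μ := by positivity
  set δ : ℝ := X ^ (-(k : ℝ)) with hδ
  have hδ0 : 0 < δ := by positivity
  have hδ1 : δ ≤ 1 := by
    rw [hδ]
    exact Real.rpow_le_one_of_one_le_of_nonpos hX1 (by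
      have : (0 : ℝ) ≤ k := by positivity
      linarith)
  have hδX : δ * X ^ k = 1 := by
    rw [hδ, Real.rpow_neg hX0.le, Real.rpow_natCast]
    exact inv_mul_cancel₀ (by positivity)
  set F : Set ℝ := {t : ℝ | t ∈ Set.Icc (((z - 1 : ℤ) : ℝ)) (((z + 2 : ℤ) : ℝ)) ∧
    ∃ η : ℝ, μ ≤ ‖sm k (2 ^ i) t η‖} with hF
  have key : ∀ t ∈ Bad k θ z i, ∀ t' : ℝ, |t' - t| ≤ δ → t' ∈ F := by
    rintro t ⟨ht1, M, hM1, hM2, ξ, hξ⟩ t' htt
    have htt' := abs_le.mp htt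
    refine ⟨⟨by push_cast; linarith [ht1.1, htt'.1], by push_cast; linarith [ht1.2, htt'.2]⟩, ?_⟩
    by_contra hcon
    push Not at hcon
    have h4 : ∀ n ≤ M, ‖sm k n t' ξ‖ ≤ (4 + 4 * Real.log X) * μ := by
      intro n hn
      have := Pool.Agent.TH181.MW.S_MAX_t k (2 ^ i) n t' μ (Nat.one_le_two_pow) (hn.trans hM1)
        (fun η => (hcon η).le) ξ
      rwa [hNX] at this
    have h5 := abel k (by omega) t t' ξ M _ h4
    have hMX : (M : ℝ) ≤ X := by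
      rw [← hNX]; exact_mod_cast hM1
    have h6 : 2 * Real.pi * |t - t'| * (M : ℝ) ^ k ≤ 2 * Real.pi := by
      have h7 : |t - t'| ≤ δ := by rw [abs_sub_comm]; exact htt
      have h8 : (M : ℝ) ^ k ≤ X ^ k := pow_le_pow_left₀ (by positivity) hMX k
      calc 2 * Real.pi * |t - t'| * (M : ℝ) ^ k ≤ 2 * Real.pi * δ * X ^ k := by gcongr
        _ = 2 * Real.pi * (δ * X ^ k) := by ring
        _ = 2 * Real.pi := by rw [hδX, mul_one]
    have hlog : 0 ≤ Real.log X := Real.log_nonneg hX1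
    have h7 : ‖sm k M t ξ‖ ≤ (1 + 2 * Real.pi) * ((4 + 4 * Real.log X) * μ) :=
      h5.trans (mul_le_mul_of_nonneg_right (by linarith) (by positivity))
    have h8 : (X / 2) ^ θ ≤ (M : ℝ) ^ θ := by
      apply Real.rpow_le_rpow (by positivity) _ hθ.le
      have : ((2 ^ i : ℕ) : ℝ) ≤ ((2 * M : ℕ) : ℝ) := by exact_mod_cast hM2
      rw [hNX] at this
      push_cast at this
      linarith
    have h9 : (X / 2) ^ θ = X ^ θ / (2 : ℝ) ^ θ := Real.div_rpow hX0.le (by norm_num) θ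
    have h10 : (1 + 2 * Real.pi) * ((4 + 4 * Real.log X) * μ) ≤ X ^ θ / (2 : ℝ) ^ θ := by
      rw [le_div_iff₀ (by positivity)]
      have h11 : X ^ θ = X ^ ε' * μ := by
        rw [hμ, ← Real.rpow_add hX0]
        congr 1
        ring
      rw [h11]
      calc (1 + 2 * Real.pi) * ((4 + 4 * Real.log X) * μ) * (2 : ℝ) ^ θ =
          ((2 : ℝ) ^ θ * (1 + 2 * Real.pi) * (4 + 4 * Real.log X)) * μ := by ring
        _ ≤ X ^ ε' * μ := mul_le_mul_of_nonneg_right g1 hμ0.le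
    rw [h9] at h8
    exact absurd hξ (not_lt.2 (h7.trans (h10.trans h8)))
  -- the measure of `F`
  have h5 := Pool.Agent.TH181.MW.meas_le s k (2 ^ i) (z - 1) (z + 2) μ (by omega) hμ0
  have hJ := hC (2 ^ i) (Nat.one_le_two_pow)
  rw [hNX] at h5 hJ
  set V : ℝ := ((s : ℝ) + 1) * (3 * C) *
    X ^ (-(j : ℝ) + (2 ^ j + 2) * (1 - θ) + (2 ^ j + 3) * ε') with hV
  have h6 : volume F ≤ ENNReal.ofReal V := by
    refine h5.trans (ENNReal.ofReal_le_ofReal ?_)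
    have e1 : (((z + 2 : ℤ) : ℝ) - ((z - 1 : ℤ) : ℝ)) = 3 := by push_cast; ring
    rw [e1]
    have e2 : μ ^ (2 * s) = X ^ ((2 ^ j + 2) * (θ - ε')) := by
      rw [hμ, ← Real.rpow_natCast, ← Real.rpow_mul hX0.le, h2s]
      congr 1
      push_cast
      ring
    have e3 : (s : ℝ) * X + 1 ≤ ((s : ℝ) + 1) * X := by linarith
    have hs0 : (0 : ℝ) ≤ s := by positivity
    calc ((s : ℝ) * X + 1) * (3 * (J s k (2 ^ i) : ℝ)) / μ ^ (2 * s)
        ≤ (((s : ℝ) + 1) * X) * (3 * (C * X ^ ((2 : ℝ) ^ j - j + 1 + ε'))) / μ ^ (2 * s) := by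
          gcongr
      _ = ((s : ℝ) + 1) * (3 * C) * (X ^ (1 : ℝ) * X ^ ((2 : ℝ) ^ j - j + 1 + ε') /
            X ^ (((2 : ℝ) ^ j + 2) * (θ - ε'))) := by
          rw [e2, Real.rpow_one]; ring
      _ = V := by
          rw [hV, ← Real.rpow_add hX0, ← Real.rpow_sub hX0]
          congr 2
          ring
  obtain ⟨S, hS1, hS2⟩ := Pool.Agent.TH181.MW.S_COV_t (Bad k θ z i) F δ V (z : ℝ) ((z : ℝ) + 1) hδ0
    (by positivity) (fun t ht => ht.1) key h6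
  refine ⟨S, hS1.trans ?_, hS2⟩
  rw [hV, hδ, mul_div_assoc, ← Real.rpow_sub hX0]
  calc ((s : ℝ) + 1) * (3 * C) *
        X ^ (-(j : ℝ) + (2 ^ j + 2) * (1 - θ) + (2 ^ j + 3) * ε' - -(k : ℝ))
      ≤ X ^ ε' * X ^ (-(j : ℝ) + (2 ^ j + 2) * (1 - θ) + (2 ^ j + 3) * ε' - -(k : ℝ)) :=
        mul_le_mul_of_nonneg_right g3 (by positivity)
    _ = X ^ ((k : ℝ) - j + (2 ^ j + 2) * (1 - θ) + (2 ^ j + 4) * ε') := by
        rw [← Real.rpow_add hX0]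
        congr 1
        ring

/-- the set of the `t` such that the bound `C N ^ θ` fails for every `C` -/
def Exc (k : ℕ) (θ : ℝ) : Set ℝ :=
  {t : ℝ | ¬ ∃ C : ℝ, ∀ N : ℕ, 1 ≤ N → ∀ ξ : ℝ, ‖sm k N t ξ‖ ≤ C * (N : ℝ) ^ θ}

theorem bad_sub (k : ℕ) (θ : ℝ) (hθ : 0 < θ) (t : ℝ) (ht : t ∈ Exc k θ) :
    ∀ i1 : ℕ, ∃ i : ℕ, i1 ≤ i ∧ t ∈ Bad k θ ⌊t⌋ i := by
  intro i1
  by_contra hcon
  push Not at hcon
  apply ht
  refine ⟨(2 : ℝ) ^ i1 + 1, fun N hN ξ => ?_⟩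
  have hN' : (1 : ℝ) ≤ (N : ℝ) := by exact_mod_cast hN
  have h2 : 1 ≤ (N : ℝ) ^ θ := Real.one_le_rpow hN' hθ.le
  have hp : (0 : ℝ) < (2 : ℝ) ^ i1 := by positivity
  rcases le_total N (2 ^ i1) with hN2 | hN2
  · have h4 : (N : ℝ) ≤ (2 : ℝ) ^ i1 := by exact_mod_cast hN2
    refine (sm_le k N t ξ).trans ?_
    nlinarith
  · obtain ⟨i, hi1, hi2⟩ : ∃ i : ℕ, N ≤ 2 ^ i ∧ 2 ^ i ≤ 2 * N := by
      refine ⟨Nat.log 2 N + 1, (Nat.lt_pow_succ_log_self (by norm_num) N).le, ?_⟩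
      have := Nat.pow_log_le_self 2 (show N ≠ 0 by omega)
      rw [pow_succ]
      omega
    have hii : i1 ≤ i := by
      have : 2 ^ i1 ≤ 2 ^ i := hN2.trans hi1
      exact (Nat.pow_le_pow_iff_right (by norm_num)).mp this
    have h5 := hcon i hii
    have h6 : ‖sm k N t ξ‖ ≤ (N : ℝ) ^ θ := by
      by_contra h7
      push Not at h7
      apply h5
      exact ⟨⟨Int.floor_le t, (Int.lt_floor_add_one t).le⟩, N, hi1, hi2, ξ, h7⟩
    nlinarith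

/-- **the dimension of the exceptional set** -/
theorem dim_exc (k j : ℕ) (hk : 3 ≤ k) (hj : 1 ≤ j) (hjk : j ≤ k) (θ : ℝ) :
    dimH (Exc k θ) ≤ ENNReal.ofReal (1 - ((j : ℝ) - (2 ^ j + 2) * (1 - θ)) / k) := by
  have hk0 : (0 : ℝ) < k := by
    have : 0 < k := by omega
    exact_mod_cast this
  have hjk' : (j : ℝ) ≤ k := by exact_mod_cast hjk
  rcases le_or_gt 1 θ with h1 | h1
  · have : Exc k θ = ∅ := by
      rw [Set.eq_empty_iff_forall_notMem]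
      intro t ht
      apply ht
      refine ⟨1, fun N hN ξ => ?_⟩
      have hN' : (1 : ℝ) ≤ (N : ℝ) := by exact_mod_cast hN
      refine (sm_le k N t ξ).trans ?_
      rw [one_mul]
      calc (N : ℝ) = (N : ℝ) ^ (1 : ℝ) := (Real.rpow_one _).symm
        _ ≤ (N : ℝ) ^ θ := Real.rpow_le_rpow_of_exponent_le hN' h1
    rw [this, dimH_empty]
    exact zero_le
  rcases le_or_gt θ 0 with h2 | h2
  · have h3 : dimH (Exc k θ) ≤ 1 := by
      rw [← Real.dimH_univ]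
      exact dimH_mono (Set.subset_univ _)
    refine h3.trans ?_
    rw [← ENNReal.ofReal_one]
    apply ENNReal.ofReal_le_ofReal
    have h4 : (j : ℝ) + 1 ≤ 2 ^ j := by
      have : j + 1 ≤ 2 ^ j := Nat.lt_two_pow_self
      exact_mod_cast this
    have h5 : ((j : ℝ) - (2 ^ j + 2) * (1 - θ)) / k ≤ 0 := by
      apply div_nonpos_of_nonpos_of_nonneg _ hk0.le
      have h6 : (2 : ℝ) ^ j + 2 ≤ (2 ^ j + 2) * (1 - θ) := by
        have : (0 : ℝ) < 2 ^ j + 2 := by positivity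
        nlinarith
      linarith
    linarith
  set D₀ : ℝ := 1 - ((j : ℝ) - (2 ^ j + 2) * (1 - θ)) / k with hD₀
  have hD₀0 : 0 < D₀ := by
    rw [hD₀, sub_pos, div_lt_one hk0]
    have : (0 : ℝ) < (2 ^ j + 2) * (1 - θ) := by
      have : (0 : ℝ) < 1 - θ := by linarith
      positivity
    linarith
  have hmain : ∀ ν : ℝ, 0 < ν → dimH (Exc k θ) ≤ ENNReal.ofReal (D₀ + ν) := by
    intro ν hν
    have hsub : Exc k θ ⊆ ⋃ z : ℤ, {t : ℝ | ∀ i1 : ℕ, ∃ i : ℕ, i1 ≤ i ∧ t ∈ Bad k θ z i} := by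
      intro t ht
      rw [Set.mem_iUnion]
      exact ⟨⌊t⌋, bad_sub k θ h2 t ht⟩
    refine (dimH_mono hsub).trans ?_
    rw [dimH_iUnion]
    apply iSup_le
    intro z
    have h4 : (0 : ℝ) < 2 ^ j + 4 := by positivity
    refine Pool.Agent.TH181.MW.S_DIMG_t
      ((k : ℝ) - j + (2 ^ j + 2) * (1 - θ) + (2 ^ j + 4) * (k * ν / (2 * (2 ^ j + 4))))
      k (D₀ + ν) (Bad k θ z) hk0 (by linarith) ?_
      (cover k j hk hj hjk θ (k * ν / (2 * (2 ^ j + 4))) h2 (by positivity) z)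
    have e1 : (2 ^ j + 4 : ℝ) * (k * ν / (2 * (2 ^ j + 4))) = k * ν / 2 := by
      field_simp
    have e2 : (k : ℝ) * D₀ = k - j + (2 ^ j + 2) * (1 - θ) := by
      rw [hD₀]
      field_simp
      ring
    rw [e1, mul_add, e2]
    have : 0 < k * ν := by positivity
    linarith
  refine ENNReal.le_of_forall_pos_le_add fun ν hν _ => ?_
  have := hmain ν (by exact_mod_cast hν)
  rwa [ENNReal.ofReal_add hD₀0.le (by positivity), ENNReal.ofReal_coe_nnreal] at this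

/-- almost everywhere, if the dimension is less than one -/
theorem null_exc (k : ℕ) (hk : 3 ≤ k) (θ : ℝ) (hθ : 2 / 3 < θ) : volume (Exc k θ) = 0 := by
  have hk0 : (0 : ℝ) < k := by
    have : 0 < k := by omega
    exact_mod_cast this
  have h1 := dim_exc k 2 hk (by norm_num) (by omega) θ
  have h2 : dimH (Exc k θ) < ((1 : NNReal) : ENNReal) := by
    refine lt_of_le_of_lt h1 ?_
    rw [ENNReal.coe_one, ← ENNReal.ofReal_one]
    apply (ENNReal.ofReal_lt_ofReal_iff one_pos).2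
    have h3 : 0 < (((2 : ℕ) : ℝ) - (2 ^ 2 + 2) * (1 - θ)) / k := by
      apply div_pos _ hk0
      push_cast
      linarith
    linarith
  have h3 := hausdorffMeasure_of_dimH_lt h2
  rw [NNReal.coe_one, hausdorffMeasure_real] at h3
  exact h3

end Pool.Agent.Q39.MH
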