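import Pool.Agent.TH181.MW.Mom
import Pool.Agent.W225.MWDIO
import Pool.Agent.Helper112.Arith

set_option autoImplicit false

/-!
# The sixth moment: `x₀ + x₁ + x₂ = y₀ + y₁ + y₂`, `x₀^k + x₁^k + x₂^k = y₀^k + y₁^k + y₂^k`
-/

namespace Pool.Agent.Q39.MH

open Finset
open Pool.Agent.TH181.MW (tup J)

lemma pair {k x1 x2 y1 y2 : ℕ} (hk : 2 ≤ k) (hx : 1 ≤ x1) (h : x1 + x2 = y1 + y2)
    (h' : x1 ^ k + x2 ^ k = y1 ^ k + y2 ^ k) : x1 = y1 ∨ x1 = y2 := by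
  have h1 := Pool.Agent.W225.MWD.t k x1 x2 y1 y2 hk h
  have h2 : (x1 : ℝ) ^ k + (x2 : ℝ) ^ k - (y1 : ℝ) ^ k - (y2 : ℝ) ^ k = 0 := by
    have : (x1 : ℝ) ^ k + (x2 : ℝ) ^ k = (y1 : ℝ) ^ k + (y2 : ℝ) ^ k := by exact_mod_cast h'
    linarith
  rw [h2, abs_zero] at h1
  have h3 : (0 : ℝ) < (max (max (x1 : ℝ) (x2 : ℝ)) (max (y1 : ℝ) (y2 : ℝ))) ^ (k - 2) := by
    apply pow_pos
    have : (1 : ℝ) ≤ x1 := by exact_mod_cast hx
    exact lt_of_lt_of_le (by linarith) ((le_max_left _ _).trans (le_max_left _ _))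
  have h4 : |(x1 : ℝ) - (y1 : ℝ)| * |(x1 : ℝ) - (y2 : ℝ)| ≤ 0 := by
    by_contra hcon
    push Not at hcon
    exact absurd h1 (not_le.2 (mul_pos hcon h3))
  have h5 : |(x1 : ℝ) - (y1 : ℝ)| * |(x1 : ℝ) - (y2 : ℝ)| = 0 :=
    le_antisymm h4 (by positivity)
  rcases mul_eq_zero.1 h5 with h6 | h6
  · left
    have := sub_eq_zero.1 (abs_eq_zero.1 h6)
    exact_mod_cast this
  · right
    have := sub_eq_zero.1 (abs_eq_zero.1 h6)
    exact_mod_cast this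

lemma pow_add_lt {k a b : ℕ} (hk : 2 ≤ k) (ha : 1 ≤ a) (hb : 1 ≤ b) :
    a ^ k + b ^ k < (a + b) ^ k := by
  obtain ⟨m, rfl⟩ : ∃ m, k = m + 1 := ⟨k - 1, by omega⟩
  have hm : m ≠ 0 := by omega
  have h1 : a ^ m + b ^ m ≤ (a + b) ^ m := pow_add_pow_le (Nat.zero_le _) (Nat.zero_le _) hm
  have h2 : 0 < a * b ^ m := by positivity
  calc a ^ (m + 1) + b ^ (m + 1) < a ^ (m + 1) + b ^ (m + 1) + a * b ^ m + b * a ^ m := by omega
    _ = (a + b) * (a ^ m + b ^ m) := by ring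
    _ ≤ (a + b) * (a + b) ^ m := Nat.mul_le_mul_left _ h1
    _ = (a + b) ^ (m + 1) := by ring

/-- the two-term equation with one integer unknown -/
lemma two {k x1 x2 y : ℕ} (hk : 2 ≤ k) (h1 : 1 ≤ x1) (h2 : 1 ≤ x2)
    (h : (y : ℤ) ^ k + ((x1 : ℤ) + x2 - y) ^ k - x1 ^ k - x2 ^ k = 0) : y = x1 ∨ y = x2 := by
  rcases le_or_gt y (x1 + x2) with hy | hy
  · obtain ⟨w, hw⟩ := Nat.exists_eq_add_of_le hy
    have e : (x1 : ℤ) + x2 - y = (w : ℤ) := by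
      have : ((x1 + x2 : ℕ) : ℤ) = ((y + w : ℕ) : ℤ) := by rw [hw]
      push_cast at this
      linarith
    rw [e] at h
    have h3 : x1 ^ k + x2 ^ k = y ^ k + w ^ k := by
      have : (x1 : ℤ) ^ k + (x2 : ℤ) ^ k = (y : ℤ) ^ k + (w : ℤ) ^ k := by linarith
      exact_mod_cast this
    rcases pair hk h1 hw h3 with h4 | h4
    · exact Or.inl h4.symm
    · right; omega
  · exfalso
    obtain ⟨c, hc⟩ := Nat.exists_eq_add_of_lt hy
    have e : (x1 : ℤ) + x2 - y = -((c + 1 : ℕ) : ℤ) := by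
      rw [hc]; push_cast; ring
    rw [e] at h
    have h3 := pow_add_lt hk h1 h2
    have h4 := pow_add_lt hk (show 1 ≤ x1 + x2 by omega) (show 1 ≤ c + 1 by omega)
    have h5 : y ^ k = (x1 + x2 + (c + 1)) ^ k := by rw [hc]; ring
    have h6 : x1 ^ k + x2 ^ k + (c + 1) ^ k < y ^ k := by rw [h5]; omega
    have h7 : (x1 : ℤ) ^ k + (x2 : ℤ) ^ k + ((c + 1 : ℕ) : ℤ) ^ k < (y : ℤ) ^ k := by
      exact_mod_cast h6
    have h8 : -((c + 1 : ℕ) : ℤ) ^ k ≤ (-((c + 1 : ℕ) : ℤ)) ^ k := by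
      have h10 : 0 ≤ ((c + 1 : ℕ) : ℤ) ^ k := by positivity
      rw [neg_pow ((c + 1 : ℕ) : ℤ) k]
      rcases neg_one_pow_eq_or ℤ k with h9 | h9
      · rw [h9]
        linarith
      · rw [h9]
        linarith
    linarith

/-- the polynomial whose divisors are counted -/
def FF (k : ℕ) (x1 x2 y : ℕ) : ℤ := (y : ℤ) ^ k + ((x1 : ℤ) + x2 - y) ^ k - x1 ^ k - x2 ^ k

/-- positive and negative divisors -/
noncomputable def dv (m : ℤ) : Finset ℤ := (m.natAbs.divisors).image (fun d : ℕ => (d : ℤ)) ∪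
    (m.natAbs.divisors).image (fun d : ℕ => -(d : ℤ))

lemma dv_card (m : ℤ) : (dv m).card ≤ 2 * m.natAbs.divisors.card := by
  have h2 := Finset.card_union_le ((m.natAbs.divisors).image (fun d : ℕ => (d : ℤ)))
      ((m.natAbs.divisors).image (fun d : ℕ => -(d : ℤ)))
  have h3 : ((m.natAbs.divisors).image (fun d : ℕ => (d : ℤ))).card ≤ m.natAbs.divisors.card :=
      Finset.card_image_le
  have h4 : ((m.natAbs.divisors).image (fun d : ℕ => -(d : ℤ))).card ≤ m.natAbs.divisors.card :=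
      Finset.card_image_le
  unfold dv
  omega

lemma mem_dv {m u : ℤ} (hm : m ≠ 0) (hu : u ∣ m) : u ∈ dv m := by
  have h6 : u.natAbs ∈ m.natAbs.divisors := by
    rw [Nat.mem_divisors]
    exact ⟨Int.natAbs_dvd_natAbs.mpr hu, Int.natAbs_ne_zero.mpr hm⟩
  rw [dv, Finset.mem_union, Finset.mem_image, Finset.mem_image]
  rcases le_total 0 u with h0 | h0
  · left; exact ⟨_, h6, by omega⟩
  · right; exact ⟨_, h6, by omega⟩

/-- the set of the solutions -/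
def Sol (k N : ℕ) : Finset ((Fin 3 → ℕ) × (Fin 3 → ℕ)) := ((tup 3 N) ×ˢ (tup 3 N)).filter
  (fun z => ∑ i, z.1 i = ∑ i, z.2 i ∧ ∑ i, z.1 i ^ k = ∑ i, z.2 i ^ k)

lemma mem_Sol {k N : ℕ} {z : (Fin 3 → ℕ) × (Fin 3 → ℕ)} (hz : z ∈ Sol k N) :
    (∀ i, 1 ≤ z.1 i ∧ z.1 i ≤ N) ∧ (∀ i, 1 ≤ z.2 i ∧ z.2 i ≤ N) ∧
      z.1 0 + z.1 1 + z.1 2 = z.2 0 + z.2 1 + z.2 2 ∧
      z.1 0 ^ k + z.1 1 ^ k + z.1 2 ^ k = z.2 0 ^ k + z.2 1 ^ k + z.2 2 ^ k := by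
  rw [Sol, mem_filter, mem_product, Pool.Agent.TH181.MW.tup, Fintype.mem_piFinset,
    Fintype.mem_piFinset, Fin.sum_univ_three, Fin.sum_univ_three, Fin.sum_univ_three,
    Fin.sum_univ_three] at hz
  exact ⟨fun i => mem_Icc.1 (hz.1.1 i), fun i => mem_Icc.1 (hz.1.2 i), hz.2.1, hz.2.2⟩

lemma tup_card (s N : ℕ) : (tup s N).card = N ^ s := by
  unfold Pool.Agent.TH181.MW.tup
  rw [Fintype.card_piFinset]
  simp

lemma ext3 {f g : Fin 3 → ℕ} (h0 : f 0 = g 0) (h1 : f 1 = g 1) (h2 : f 2 = g 2) : f = g := by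
  funext i
  fin_cases i
  · exact h0
  · exact h1
  · exact h2

lemma cardA {k N : ℕ} (hk : 2 ≤ k) :
    ((Sol k N).filter (fun z => z.1 0 = z.2 0)).card ≤ 2 * N ^ 3 := by
  have h : ((Sol k N).filter (fun z => z.1 0 = z.2 0)).card ≤
      ((tup 3 N) ×ˢ (univ : Finset Bool)).card := by
    refine card_le_card_of_injOn (fun z => (z.1, decide (z.2 1 = z.1 1))) ?_ ?_
    · intro z hz
      rw [mem_coe, mem_filter] at hz
      have h1 := hz.1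
      rw [Sol, mem_filter, mem_product] at h1
      rw [mem_coe, mem_product]
      exact ⟨h1.1.1, mem_univ _⟩
    · have key : ∀ z ∈ (Sol k N).filter (fun z => z.1 0 = z.2 0),
          (z.2 1 = z.1 1 ∧ z.2 2 = z.1 2) ∨ (z.2 1 = z.1 2 ∧ z.2 2 = z.1 1) := by
        intro z hz
        rw [mem_filter] at hz
        obtain ⟨h1, h2, h3, h4⟩ := mem_Sol hz.1
        have e := hz.2
        rw [e] at h3 h4
        have h5 := pair hk (h2 1).1 (show z.2 1 + z.2 2 = z.1 1 + z.1 2 by omega)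
          (show z.2 1 ^ k + z.2 2 ^ k = z.1 1 ^ k + z.1 2 ^ k by omega)
        omega
      intro z hz w hw hzw
      rw [mem_coe] at hz hw
      have k1 := key z hz
      have k2 := key w hw
      simp only [Prod.mk.injEq, decide_eq_decide] at hzw
      obtain ⟨h1, h2⟩ := hzw
      have e0 : z.1 0 = z.2 0 := (mem_filter.1 hz).2
      have e0' : w.1 0 = w.2 0 := (mem_filter.1 hw).2
      have a0 : z.1 0 = w.1 0 := by rw [h1]
      have a1 : z.1 1 = w.1 1 := by rw [h1]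
      have a2 : z.1 2 = w.1 2 := by rw [h1]
      refine Prod.ext h1 (ext3 (by omega) ?_ ?_)
      · rcases k1 with ⟨b1, b2⟩ | ⟨b1, b2⟩ <;> rcases k2 with ⟨c1, c2⟩ | ⟨c1, c2⟩ <;> omega
      · rcases k1 with ⟨b1, b2⟩ | ⟨b1, b2⟩ <;> rcases k2 with ⟨c1, c2⟩ | ⟨c1, c2⟩ <;> omega
  refine h.trans (le_of_eq ?_)
  rw [card_product, tup_card]
  simp [mul_comm]

/-- the first pair is determined by the others, if its difference is not zero -/
lemma first {k N : ℕ} (hk : 2 ≤ k) {z w : (Fin 3 → ℕ) × (Fin 3 → ℕ)} (hz : z ∈ Sol k N)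
    (hw : w ∈ Sol k N) (hne : z.1 0 ≠ z.2 0) (h1 : z.1 1 = w.1 1) (h2 : z.1 2 = w.1 2)
    (h3 : z.2 1 = w.2 1) (h4 : z.2 2 = w.2 2) : z = w := by
  obtain ⟨a1, a2, a3, a4⟩ := mem_Sol hz
  obtain ⟨b1, b2, b3, b4⟩ := mem_Sol hw
  rw [← h1, ← h2, ← h3, ← h4] at b3 b4
  have h5 := pair hk (a1 0).1 (show z.1 0 + w.2 0 = w.1 0 + z.2 0 by omega)
    (show z.1 0 ^ k + w.2 0 ^ k = w.1 0 ^ k + z.2 0 ^ k by omega)
  rcases h5 with h5 | h5
  · exact Prod.ext (ext3 h5 h1 h2) (ext3 (by omega) h3 h4)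
  · exact absurd h5 hne

lemma cardB {k N : ℕ} (hk : 2 ≤ k) :
    ((Sol k N).filter (fun z => z.1 0 ≠ z.2 0 ∧ FF k (z.1 1) (z.1 2) (z.2 1) = 0)).card ≤
      2 * N ^ 3 := by
  have h : ((Sol k N).filter (fun z => z.1 0 ≠ z.2 0 ∧ FF k (z.1 1) (z.1 2) (z.2 1) = 0)).card ≤
      ((Icc 1 N ×ˢ Icc 1 N) ×ˢ (Icc 1 N ×ˢ (univ : Finset Bool))).card := by
    refine card_le_card_of_injOn
      (fun z => ((z.1 1, z.1 2), (z.2 2, decide (z.2 1 = z.1 1)))) ?_ ?_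
    · intro z hz
      rw [mem_coe, mem_filter] at hz
      obtain ⟨h1, h2, -, -⟩ := mem_Sol hz.1
      rw [mem_coe, mem_product, mem_product, mem_product]
      exact ⟨⟨mem_Icc.2 (h1 1), mem_Icc.2 (h1 2)⟩, mem_Icc.2 (h2 2), mem_univ _⟩
    · intro z hz w hw hzw
      rw [mem_coe, mem_filter] at hz hw
      obtain ⟨a1, a2, a3, a4⟩ := mem_Sol hz.1
      obtain ⟨b1, b2, b3, b4⟩ := mem_Sol hw.1
      have c1 := two hk (a1 1).1 (a1 2).1 hz.2.2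
      have c2 := two hk (b1 1).1 (b1 2).1 hw.2.2
      simp only [Prod.mk.injEq, decide_eq_decide] at hzw
      obtain ⟨⟨h1, h2⟩, h3, h4⟩ := hzw
      refine first hk hz.1 hw.1 hz.2.1 h1 h2 ?_ h3
      rcases c1 with c1 | c1 <;> rcases c2 with c2 | c2 <;> omega
  refine h.trans (le_of_eq ?_)
  rw [card_product, card_product, card_product, Nat.card_Icc]
  simp
  ring

lemma cardC {k N D : ℕ} (hk : 2 ≤ k)
    (hD : ∀ x1 ∈ Icc 1 N, ∀ x2 ∈ Icc 1 N, ∀ y ∈ Icc 1 N,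
      (FF k x1 x2 y).natAbs.divisors.card ≤ D) :
    ((Sol k N).filter (fun z => z.1 0 ≠ z.2 0 ∧ ¬ FF k (z.1 1) (z.1 2) (z.2 1) = 0)).card ≤
      2 * D * N ^ 3 := by
  classical
  have h : ((Sol k N).filter (fun z => z.1 0 ≠ z.2 0 ∧ ¬ FF k (z.1 1) (z.1 2) (z.2 1) = 0)).card ≤
      (((Icc 1 N ×ˢ Icc 1 N) ×ˢ Icc 1 N).sigma (fun p => dv (FF k p.1.1 p.1.2 p.2))).card := by
    refine card_le_card_of_injOn
      (fun z => ⟨((z.1 1, z.1 2), z.2 1), (z.1 0 : ℤ) - z.2 0⟩) ?_ ?_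
    · intro z hz
      rw [mem_coe, mem_filter] at hz
      obtain ⟨h1, h2, h3, h4⟩ := mem_Sol hz.1
      rw [mem_coe, mem_sigma, mem_product, mem_product]
      refine ⟨⟨⟨mem_Icc.2 (h1 1), mem_Icc.2 (h1 2)⟩, mem_Icc.2 (h2 1)⟩, mem_dv hz.2.2 ?_⟩
      have e1 : (z.1 0 : ℤ) - z.2 0 = z.2 2 - (z.1 1 + z.1 2 - z.2 1) := by
        have : ((z.1 0 + z.1 1 + z.1 2 : ℕ) : ℤ) = ((z.2 0 + z.2 1 + z.2 2 : ℕ) : ℤ) := by rw [h3]
        push_cast at this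
        linarith
      have e2 : ((z.1 0 : ℤ)) ^ k + z.1 1 ^ k + z.1 2 ^ k = z.2 0 ^ k + z.2 1 ^ k + z.2 2 ^ k := by
        exact_mod_cast h4
      have e3 : (z.1 0 : ℤ) - z.2 0 ∣ (z.1 0 : ℤ) ^ k - z.2 0 ^ k := sub_dvd_pow_sub_pow _ _ k
      have e4 : (z.1 0 : ℤ) - z.2 0 ∣ (z.2 2 : ℤ) ^ k - (z.1 1 + z.1 2 - z.2 1) ^ k := by
        rw [e1]
        exact sub_dvd_pow_sub_pow _ _ k
      have e5 : FF k (z.1 1) (z.1 2) (z.2 1) = ((z.1 0 : ℤ) ^ k - z.2 0 ^ k) -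
          ((z.2 2 : ℤ) ^ k - (z.1 1 + z.1 2 - z.2 1) ^ k) := by
        unfold FF
        linarith
      rw [e5]
      exact dvd_sub e3 e4
    · intro z hz w hw hzw
      rw [mem_coe, mem_filter] at hz hw
      obtain ⟨a1, a2, a3, a4⟩ := mem_Sol hz.1
      obtain ⟨b1, b2, b3, b4⟩ := mem_Sol hw.1
      simp only [Sigma.mk.injEq, Prod.mk.injEq, heq_eq_eq] at hzw
      obtain ⟨⟨⟨h1, h2⟩, h3⟩, h4⟩ := hzw
      exact first hk hz.1 hw.1 hz.2.1 h1 h2 h3 (by omega)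
  refine h.trans ?_
  rw [card_sigma]
  calc _ ≤ ∑ _p ∈ (Icc 1 N ×ˢ Icc 1 N) ×ˢ Icc 1 N, 2 * D := by
        refine sum_le_sum fun p hp => ?_
        rw [mem_product, mem_product] at hp
        exact (dv_card _).trans (Nat.mul_le_mul_left 2 (hD _ hp.1.1 _ hp.1.2 _ hp.2))
    _ = 2 * D * N ^ 3 := by
        rw [sum_const, card_product, card_product, Nat.card_Icc, smul_eq_mul]
        simp
        ring

lemma FF_le {k N x1 x2 y : ℕ} (h1 : x1 ∈ Icc 1 N) (h2 : x2 ∈ Icc 1 N) (h3 : y ∈ Icc 1 N) :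
    (FF k x1 x2 y).natAbs ≤ 4 * (2 * N) ^ k := by
  rw [mem_Icc] at h1 h2 h3
  have hb : ∀ a : ℤ, |a| ≤ 2 * N → |a ^ k| ≤ (2 * N : ℤ) ^ k := by
    intro a ha
    rw [abs_pow]
    exact pow_le_pow_left₀ (abs_nonneg _) ha k
  have e1 := hb y (by rw [abs_le]; constructor <;> omega)
  have e2 := hb (x1 + x2 - y) (by rw [abs_le]; constructor <;> omega)
  have e3 := hb x1 (by rw [abs_le]; constructor <;> omega)
  have e4 := hb x2 (by rw [abs_le]; constructor <;> omega)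
  have h : |FF k x1 x2 y| ≤ 4 * (2 * N : ℤ) ^ k := by
    unfold FF
    rw [abs_le] at e1 e2 e3 e4 ⊢
    constructor <;> linarith [e1.1, e1.2, e2.1, e2.2, e3.1, e3.2, e4.1, e4.2]
  zify
  exact h

/-- **sixth moment** -/
theorem six (k : ℕ) (hk : 2 ≤ k) (ε : ℝ) (hε : 0 < ε) : ∃ C : ℝ, 0 < C ∧ ∀ N : ℕ, 1 ≤ N →
    (J 3 k N : ℝ) ≤ C * (N : ℝ) ^ (3 + ε) := by
  have hk0 : (0 : ℝ) < k := by
    have : 0 < k := by omega
    exact_mod_cast this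
  obtain ⟨C, hC, hC2⟩ := Pool.Agent.Helper112.divisor_bound (ε / k) (by positivity)
  refine ⟨4 + 2 * (C * (4 * 2 ^ k) ^ (ε / k)) + 2, by positivity, fun N hN => ?_⟩
  have hN1 : (1 : ℝ) ≤ N := by exact_mod_cast hN
  have hN0 : (0 : ℝ) < N := by linarith
  set D : ℕ := ⌊C * ((4 * (2 * N) ^ k : ℕ) : ℝ) ^ (ε / k)⌋₊ + 1 with hDdef
  have hD : ∀ x1 ∈ Icc 1 N, ∀ x2 ∈ Icc 1 N, ∀ y ∈ Icc 1 N,
      (FF k x1 x2 y).natAbs.divisors.card ≤ D := by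
    intro x1 h1 x2 h2 y h3
    rcases Nat.eq_zero_or_pos (FF k x1 x2 y).natAbs with h0 | h0
    · rw [h0]; simp
    · have h4 := hC2 _ h0
      have h5 : (((FF k x1 x2 y).natAbs : ℕ) : ℝ) ^ (ε / k) ≤
          ((4 * (2 * N) ^ k : ℕ) : ℝ) ^ (ε / k) := by
        apply Real.rpow_le_rpow (by positivity) _ (by positivity)
        exact_mod_cast FF_le h1 h2 h3
      have h6 : (((FF k x1 x2 y).natAbs.divisors.card : ℕ) : ℝ) ≤
          C * ((4 * (2 * N) ^ k : ℕ) : ℝ) ^ (ε / k) :=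
        h4.trans (mul_le_mul_of_nonneg_left h5 hC.le)
      have := Nat.le_floor h6
      omega
  have hJ : J 3 k N = (Sol k N).card := rfl
  have hsplit : (Sol k N).card ≤ ((Sol k N).filter (fun z => z.1 0 = z.2 0)).card +
      ((Sol k N).filter (fun z => z.1 0 ≠ z.2 0 ∧ FF k (z.1 1) (z.1 2) (z.2 1) = 0)).card +
      ((Sol k N).filter (fun z => z.1 0 ≠ z.2 0 ∧ ¬ FF k (z.1 1) (z.1 2) (z.2 1) = 0)).card := by
    classical
    have : Sol k N ⊆ ((Sol k N).filter (fun z => z.1 0 = z.2 0) ∪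
        (Sol k N).filter (fun z => z.1 0 ≠ z.2 0 ∧ FF k (z.1 1) (z.1 2) (z.2 1) = 0)) ∪
        (Sol k N).filter (fun z => z.1 0 ≠ z.2 0 ∧ ¬ FF k (z.1 1) (z.1 2) (z.2 1) = 0) := by
      intro z hz
      rw [mem_union, mem_union, mem_filter, mem_filter, mem_filter]
      tauto
    refine (card_le_card this).trans ((card_union_le _ _).trans ?_)
    exact Nat.add_le_add_right (card_union_le _ _) _
  have h1 : (Sol k N).card ≤ (4 + 2 * D) * N ^ 3 := by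
    have := cardA (N := N) hk
    have := cardB (N := N) hk
    have := cardC hk hD
    have e : (4 + 2 * D) * N ^ 3 = 2 * N ^ 3 + 2 * N ^ 3 + 2 * D * N ^ 3 := by ring
    rw [e]
    omega
  have hDle : (D : ℝ) ≤ C * (4 * 2 ^ k) ^ (ε / k) * (N : ℝ) ^ ε + 1 := by
    rw [hDdef]
    push_cast
    have h2 : (⌊C * (4 * (2 * (N : ℝ)) ^ k) ^ (ε / k)⌋₊ : ℝ) ≤
        C * (4 * (2 * (N : ℝ)) ^ k) ^ (ε / k) := Nat.floor_le (by positivity)
    have h3 : (4 * (2 * (N : ℝ)) ^ k) ^ (ε / k) = (4 * 2 ^ k) ^ (ε / k) * (N : ℝ) ^ ε := by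
      rw [mul_pow, ← mul_assoc, Real.mul_rpow (by positivity) (by positivity)]
      congr 1
      rw [← Real.rpow_natCast, ← Real.rpow_mul hN0.le]
      congr 1
      field_simp
    rw [h3] at h2
    rw [← mul_assoc] at h2
    rw [h3, ← mul_assoc]
    linarith
  have hNε : (1 : ℝ) ≤ (N : ℝ) ^ ε := Real.one_le_rpow hN1 hε.le
  rw [hJ]
  have h2 : ((Sol k N).card : ℝ) ≤ (4 + 2 * D) * (N : ℝ) ^ 3 := by exact_mod_cast h1
  have h3 : (N : ℝ) ^ (3 + ε) = (N : ℝ) ^ ε * (N : ℝ) ^ 3 := by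
    rw [Real.rpow_add hN0, mul_comm]
    congr 1
    exact_mod_cast Real.rpow_natCast (N : ℝ) 3
  rw [h3, ← mul_assoc]
  refine h2.trans (mul_le_mul_of_nonneg_right ?_ (by positivity))
  have h4 : 0 < C * (4 * 2 ^ k) ^ (ε / k) := by positivity
  nlinarith

end Pool.Agent.Q39.MH
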