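import Pool.Agent.TH181.MW.HuaB
import Pool.Agent.Q39.MH.Six

set_option autoImplicit false

/-!
# Hua's inequality for the degrees `1, k`
-/

namespace Pool.Agent.Q39.MH

open Finset
open Pool.Agent.TH181.MW (tup J LS TT Lam ph AA)
open Pool.Agent.W928.MW (e sm e_add e_norm)

/-! ### Averages over a finite grid -/

lemma e_char (P : ℕ) [NeZero P] (a : ZMod P) (A : ℤ) :
    e ((a.val : ℝ) / P * (A : ℝ)) = ZMod.stdAddChar (a * (A : ZMod P)) := by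
  have h1 : a * (A : ZMod P) = (((a.val : ℤ) * A : ℤ) : ZMod P) := by
    push_cast
    rw [ZMod.natCast_zmod_val]
  rw [h1, ZMod.stdAddChar_coe]
  unfold Pool.Agent.W928.MW.e
  congr 1
  push_cast
  ring

lemma avg_one (P : ℕ) [NeZero P] (A : ℤ) :
    ∑ a : ZMod P, e ((a.val : ℝ) / P * (A : ℝ)) = if (P : ℤ) ∣ A then (P : ℂ) else 0 := by
  simp_rw [e_char]
  rw [AddChar.sum_mulShift _ (ZMod.isPrimitive_stdAddChar P), ZMod.card]
  simp only [ZMod.intCast_zmod_eq_zero_iff_dvd]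
  split_ifs <;> simp

lemma avg_two {ι : Type*} (P : ℕ) [NeZero P] (S : Finset ι) (A B : ι → ℤ) :
    ∑ a : ZMod P, ∑ b : ZMod P, ∑ i ∈ S,
      e ((a.val : ℝ) / P * (A i : ℝ) + (b.val : ℝ) / P * (B i : ℝ)) =
      (P : ℂ) ^ 2 * ((S.filter fun i => (P : ℤ) ∣ A i ∧ (P : ℤ) ∣ B i).card : ℂ) := by
  classical
  have h1 : ∀ i, ∑ a : ZMod P, ∑ b : ZMod P,
      e ((a.val : ℝ) / P * (A i : ℝ) + (b.val : ℝ) / P * (B i : ℝ)) =
      if (P : ℤ) ∣ A i ∧ (P : ℤ) ∣ B i then (P : ℂ) ^ 2 else 0 := by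
    intro i
    simp_rw [e_add]
    rw [← sum_mul_sum, avg_one, avg_one]
    by_cases h2 : (P : ℤ) ∣ A i <;> by_cases h3 : (P : ℤ) ∣ B i <;> simp [h2, h3, sq]
  calc _ = ∑ a : ZMod P, ∑ i ∈ S, ∑ b : ZMod P,
        e ((a.val : ℝ) / P * (A i : ℝ) + (b.val : ℝ) / P * (B i : ℝ)) :=
        sum_congr rfl fun a _ => sum_comm
    _ = ∑ i ∈ S, ∑ a : ZMod P, ∑ b : ZMod P,
        e ((a.val : ℝ) / P * (A i : ℝ) + (b.val : ℝ) / P * (B i : ℝ)) := sum_comm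
    _ = ∑ i ∈ S, if (P : ℤ) ∣ A i ∧ (P : ℤ) ∣ B i then (P : ℂ) ^ 2 else 0 :=
        sum_congr rfl fun i _ => h1 i
    _ = _ := by
        rw [← sum_filter, sum_const, nsmul_eq_mul, mul_comm]

lemma sm_pow_s (s k N : ℕ) (t ξ : ℝ) : sm k N t ξ ^ s =
    ∑ z ∈ tup s N, e (t * ((∑ i, z i ^ k : ℕ) : ℝ) + ξ * ((∑ i, z i : ℕ) : ℝ)) := by
  unfold Pool.Agent.W928.MW.sm Pool.Agent.TH181.MW.tup
  rw [Finset.sum_pow']
  apply Finset.sum_congr rfl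
  intro z _
  rw [← Pool.Agent.TH181.MW.e_sum]
  congr 1
  push_cast
  rw [Finset.mul_sum, Finset.mul_sum, ← Finset.sum_add_distrib]

/-- the differences of the sums of `k`-th powers and of the sums -/
def dk {s : ℕ} (k : ℕ) (z : (Fin s → ℕ) × (Fin s → ℕ)) : ℤ :=
  ((∑ i, z.1 i ^ k : ℕ) : ℤ) - ((∑ i, z.2 i ^ k : ℕ) : ℤ)

lemma sm_sq (s k N : ℕ) (t ξ : ℝ) : ((‖sm k N t ξ‖ ^ (2 * s) : ℝ) : ℂ) =
    ∑ z ∈ tup s N ×ˢ tup s N, e (t * (dk k z : ℝ) + ξ * (dk 1 z : ℝ)) := by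
  have h1 : ((‖sm k N t ξ‖ ^ (2 * s) : ℝ) : ℂ) =
      sm k N t ξ ^ s * (starRingEnd ℂ) (sm k N t ξ ^ s) := by
    rw [Complex.mul_conj, Complex.normSq_eq_norm_sq, norm_pow, ← pow_mul, mul_comm]
  rw [h1, sm_pow_s, map_sum, sum_mul_sum, ← sum_product']
  refine sum_congr rfl fun z _ => ?_
  rw [Pool.Agent.TH181.MW.e_conj, ← e_add]
  congr 1
  simp only [dk, pow_one]
  push_cast
  ring

lemma dk_abs {s k N : ℕ} (z : (Fin s → ℕ) × (Fin s → ℕ)) (hz : z ∈ tup s N ×ˢ tup s N) :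
    |dk k z| ≤ s * (N : ℤ) ^ k := by
  rw [mem_product, Pool.Agent.TH181.MW.tup, Fintype.mem_piFinset, Fintype.mem_piFinset] at hz
  have h : ∀ x : Fin s → ℕ, (∀ i, x i ∈ Icc 1 N) → (∑ i, x i ^ k) ≤ s * N ^ k := by
    intro x hx
    calc ∑ i, x i ^ k ≤ ∑ _i : Fin s, N ^ k :=
          sum_le_sum fun i _ => Nat.pow_le_pow_left (mem_Icc.1 (hx i)).2 k
      _ = s * N ^ k := by simp
  have h1 := h z.1 hz.1
  have h2 := h z.2 hz.2
  have h3 : ((∑ i, z.1 i ^ k : ℕ) : ℤ) ≤ s * (N : ℤ) ^ k := by exact_mod_cast h1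
  have h4 : ((∑ i, z.2 i ^ k : ℕ) : ℤ) ≤ s * (N : ℤ) ^ k := by exact_mod_cast h2
  have h5 : 0 ≤ ((∑ i, z.1 i ^ k : ℕ) : ℤ) := by positivity
  have h6 : 0 ≤ ((∑ i, z.2 i ^ k : ℕ) : ℤ) := by positivity
  unfold dk
  rw [abs_le]
  constructor <;> linarith

lemma dvd_iff {P : ℕ} {A : ℤ} (h : |A| < P) : (P : ℤ) ∣ A ↔ A = 0 := by
  constructor
  · intro h1
    exact Int.eq_zero_of_abs_lt_dvd h1 h
  · rintro rfl
    exact dvd_zero _

/-- the `2 s`-th moment on the grid -/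
lemma moment (s k N P : ℕ) [NeZero P] (hk : 1 ≤ k) (hN : 1 ≤ N) (hP : s * N ^ k < P) :
    ∑ a : ZMod P, ∑ b : ZMod P, ‖sm k N ((a.val : ℝ) / P) ((b.val : ℝ) / P)‖ ^ (2 * s) =
      (P : ℝ) ^ 2 * (J s k N : ℝ) := by
  have h1 := avg_two P (tup s N ×ˢ tup s N) (fun z => dk k z) (fun z => dk 1 z)
  simp_rw [← sm_sq] at h1
  have h2 : (tup s N ×ˢ tup s N).filter (fun z => (P : ℤ) ∣ dk k z ∧ (P : ℤ) ∣ dk 1 z) =
      ((tup s N) ×ˢ (tup s N)).filter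
        (fun z => ∑ i, z.1 i = ∑ i, z.2 i ∧ ∑ i, z.1 i ^ k = ∑ i, z.2 i ^ k) := by
    refine filter_congr fun z hz => ?_
    have hPk : (s * (N : ℤ) ^ k) < P := by exact_mod_cast hP
    have hN1 : (N : ℤ) ^ 1 ≤ (N : ℤ) ^ k := pow_le_pow_right₀ (by exact_mod_cast hN) hk
    have e1 : |dk k z| < P := lt_of_le_of_lt (dk_abs z hz) hPk
    have e2 : |dk 1 z| < P := by
      refine lt_of_le_of_lt ((dk_abs z hz).trans ?_) hPk
      exact mul_le_mul_of_nonneg_left hN1 (by positivity)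
    rw [dvd_iff e1, dvd_iff e2]
    simp only [dk, pow_one]
    constructor
    · rintro ⟨h3, h4⟩
      exact ⟨by exact_mod_cast sub_eq_zero.1 h4, by exact_mod_cast sub_eq_zero.1 h3⟩
    · rintro ⟨h3, h4⟩
      rw [h3, h4]
      simp
  rw [h2] at h1
  have h3 : (((∑ a : ZMod P, ∑ b : ZMod P,
      ‖sm k N ((a.val : ℝ) / P) ((b.val : ℝ) / P)‖ ^ (2 * s) : ℝ)) : ℂ) =
      (((P : ℝ) ^ 2 * (J s k N : ℝ) : ℝ) : ℂ) := by
    push_cast at h1 ⊢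
    exact h1
  exact_mod_cast h3

/-- the differenced sum times the moment, on the grid -/
lemma moment_diff (s k N j P : ℕ) [NeZero P] (hj : 2 ≤ j) (hk : 1 ≤ k) (hN : 1 ≤ N)
    (hP : (2 ^ j + s) * N ^ k < P) :
    ∑ a : ZMod P, ∑ b : ZMod P,
      (∑ l ∈ LS (Icc (-(N : ℤ)) N) j, TT k N ((a.val : ℝ) / P) ((b.val : ℝ) / P) l).re *
        ‖sm k N ((a.val : ℝ) / P) ((b.val : ℝ) / P)‖ ^ (2 * s) =
      (P : ℝ) ^ 2 * ((((Lam N j) ×ˢ (tup s N ×ˢ tup s N)).filter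
        (fun w => ph (fun n => n ^ k) w.1.1 w.1.2 + dk k w.2 = 0 ∧ dk 1 w.2 = 0)).card : ℝ) := by
  have h1 := avg_two P ((Lam N j) ×ˢ (tup s N ×ˢ tup s N))
    (fun w => ph (fun n => n ^ k) w.1.1 w.1.2 + dk k w.2) (fun w => dk 1 w.2)
  have hTT : ∀ t ξ : ℝ, ∑ l ∈ LS (Icc (-(N : ℤ)) N) j, TT k N t ξ l =
      ∑ w ∈ Lam N j, e (t * ((ph (fun n => n ^ k) w.1 w.2 : ℤ) : ℝ)) := by
    intro t ξ
    unfold Pool.Agent.TH181.MW.Lam Pool.Agent.TH181.MW.TT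
    rw [sum_sigma]
    refine sum_congr rfl fun l hl => sum_congr rfl fun n _ => ?_
    rw [Pool.Agent.TH181.MW.mem_LS] at hl
    rw [Pool.Agent.TH181.MW.ph_id l (by omega) n]
    simp
  have h2 : ∀ t ξ : ℝ, (((∑ l ∈ LS (Icc (-(N : ℤ)) N) j, TT k N t ξ l).re *
        ‖sm k N t ξ‖ ^ (2 * s) : ℝ) : ℂ) = ∑ w ∈ (Lam N j) ×ˢ (tup s N ×ˢ tup s N),
      e (t * ((ph (fun n => n ^ k) w.1.1 w.1.2 + dk k w.2 : ℤ) : ℝ) +
        ξ * ((dk 1 w.2 : ℤ) : ℝ)) := by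
    intro t ξ
    have h3 : (((∑ l ∈ LS (Icc (-(N : ℤ)) N) j, TT k N t ξ l).re : ℝ) : ℂ) =
        ∑ l ∈ LS (Icc (-(N : ℤ)) N) j, TT k N t ξ l := by
      apply Complex.ext
      · simp
      · obtain ⟨i, rfl⟩ : ∃ i, j = i + 1 := ⟨j - 1, by omega⟩
        rw [Pool.Agent.TH181.MW.TT_im]
        simp
    rw [Complex.ofReal_mul, h3, sm_sq, hTT t ξ, sum_mul_sum, ← sum_product']
    refine sum_congr rfl fun w _ => ?_
    rw [← e_add]
    congr 1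
    push_cast
    ring
  simp_rw [← h2] at h1
  have h4 : ((Lam N j) ×ˢ (tup s N ×ˢ tup s N)).filter (fun w =>
        (P : ℤ) ∣ ph (fun n => n ^ k) w.1.1 w.1.2 + dk k w.2 ∧ (P : ℤ) ∣ dk 1 w.2) =
      ((Lam N j) ×ˢ (tup s N ×ˢ tup s N)).filter
        (fun w => ph (fun n => n ^ k) w.1.1 w.1.2 + dk k w.2 = 0 ∧ dk 1 w.2 = 0) := by
    refine filter_congr fun w hw => ?_
    rw [mem_product] at hw
    have hPk : ((2 ^ j + s) * (N : ℤ) ^ k) < P := by exact_mod_cast hP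
    have hN1 : (N : ℤ) ^ 1 ≤ (N : ℤ) ^ k := pow_le_pow_right₀ (by exact_mod_cast hN) hk
    have e0 : |ph (fun n => n ^ k) w.1.1 w.1.2| ≤ 2 ^ j * (N : ℤ) ^ k := by
      have h5 := hw.1
      unfold Pool.Agent.TH181.MW.Lam at h5
      rw [mem_sigma, Pool.Agent.TH181.MW.mem_LS] at h5
      have h6 := Pool.Agent.TH181.MW.ph_le k N w.1.1 w.1.2 h5.2
      rwa [h5.1.1] at h6
    have e1 : |ph (fun n => n ^ k) w.1.1 w.1.2 + dk k w.2| < P := by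
      have := abs_add_le (ph (fun n => n ^ k) w.1.1 w.1.2) (dk k w.2)
      have := dk_abs (k := k) w.2 hw.2
      linarith
    have e2 : |dk 1 w.2| < P := by
      have h7 := dk_abs (k := 1) w.2 hw.2
      have h8 : (s : ℤ) * (N : ℤ) ^ 1 ≤ (2 ^ j + s) * (N : ℤ) ^ k := by
        have : (0 : ℤ) ≤ 2 ^ j * (N : ℤ) ^ k := by positivity
        have := mul_le_mul_of_nonneg_left hN1 (show (0 : ℤ) ≤ s by positivity)
        linarith
      linarith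
    rw [dvd_iff e1, dvd_iff e2]
  rw [h4] at h1
  have h5 : (((∑ a : ZMod P, ∑ b : ZMod P,
      (∑ l ∈ LS (Icc (-(N : ℤ)) N) j, TT k N ((a.val : ℝ) / P) ((b.val : ℝ) / P) l).re *
        ‖sm k N ((a.val : ℝ) / P) ((b.val : ℝ) / P)‖ ^ (2 * s) : ℝ)) : ℂ) =
      (((P : ℝ) ^ 2 * ((((Lam N j) ×ˢ (tup s N ×ˢ tup s N)).filter
        (fun w => ph (fun n => n ^ k) w.1.1 w.1.2 + dk k w.2 = 0 ∧ dk 1 w.2 = 0)).card : ℝ) : ℝ)
          : ℂ) := by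
    push_cast at h1 ⊢
    exact h1
  exact_mod_cast h5

/-- tuples with equal sums -/
lemma eq_sums (s N : ℕ) (hs : 1 ≤ s) :
    ((tup s N ×ˢ tup s N).filter (fun z => dk 1 z = 0)).card ≤ N ^ (2 * s - 1) := by
  obtain ⟨r, rfl⟩ : ∃ r, s = r + 1 := ⟨s - 1, by omega⟩
  have h : ((tup (r + 1) N ×ˢ tup (r + 1) N).filter (fun z => dk 1 z = 0)).card ≤
      (tup (r + 1) N ×ˢ tup r N).card := by
    refine card_le_card_of_injOn (fun z => (z.1, fun i => z.2 i.succ)) ?_ ?_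
    · intro z hz
      rw [mem_coe, mem_filter, mem_product] at hz
      rw [mem_coe, mem_product]
      refine ⟨hz.1.1, ?_⟩
      have h1 := hz.1.2
      unfold Pool.Agent.TH181.MW.tup at h1 ⊢
      rw [Fintype.mem_piFinset] at h1 ⊢
      exact fun i => h1 i.succ
    · intro z hz w hw hzw
      rw [mem_coe, mem_filter] at hz hw
      simp only [Prod.mk.injEq] at hzw
      obtain ⟨h1, h2⟩ := hzw
      refine Prod.ext h1 (funext fun i => ?_)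
      have h3 : ∀ i : Fin r, z.2 i.succ = w.2 i.succ := fun i => congrFun h2 i
      refine Fin.cases ?_ h3 i
      have e1 := hz.2
      have e2 := hw.2
      simp only [dk, pow_one] at e1 e2
      rw [Fin.sum_univ_succ (fun i => z.2 i)] at e1
      rw [Fin.sum_univ_succ (fun i => w.2 i), ← h1, ← sum_congr rfl fun i _ => h3 i] at e2
      push_cast at e1 e2
      have e3 : ((z.2 0 : ℕ) : ℤ) = ((w.2 0 : ℕ) : ℤ) := by linarith
      exact_mod_cast e3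
  refine h.trans (le_of_eq ?_)
  rw [card_product, tup_card, tup_card, ← pow_add]
  congr 1
  omega

/-- **the recursion of Hua** -/
theorem step (s k N j D : ℕ) (hs : 1 ≤ s) (hj : 2 ≤ j) (hjk : j < k) (hN : 1 ≤ N)
    (hD : ∀ m : ℕ, 1 ≤ m → m ≤ s * N ^ k → m.divisors.card ≤ D) :
    (J (s + 2 ^ (j - 1)) k N : ℝ) ≤ (2 * (N : ℝ) + 1) ^ (2 ^ j - j - 1) *
      ((j + k) * (2 * (N : ℝ) + 1) ^ j * (J s k N : ℝ) + (2 * D) ^ j * k * (N : ℝ) ^ (2 * s - 1)) := by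
  classical
  obtain ⟨P, hP⟩ : ∃ P : ℕ, ((2 ^ j + s) * N ^ k + (s + 2 ^ (j - 1)) * N ^ k) < P :=
    ⟨_, Nat.lt_succ_self _⟩
  have : NeZero P := ⟨by omega⟩
  have hP0 : (0 : ℝ) < P := by
    have : 0 < P := by omega
    exact_mod_cast this
  have h1 := moment (s + 2 ^ (j - 1)) k N P (by omega) hN (by omega)
  have h2 := moment_diff s k N j P hj (by omega) hN (by omega)
  have h3 : ∀ a b : ZMod P, ‖sm k N ((a.val : ℝ) / P) ((b.val : ℝ) / P)‖ ^ (2 * (s + 2 ^ (j - 1))) ≤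
      (2 * (N : ℝ) + 1) ^ (2 ^ j - j - 1) *
      ((∑ l ∈ LS (Icc (-(N : ℤ)) N) j, TT k N ((a.val : ℝ) / P) ((b.val : ℝ) / P) l).re *
        ‖sm k N ((a.val : ℝ) / P) ((b.val : ℝ) / P)‖ ^ (2 * s)) := by
    intro a b
    obtain ⟨i, rfl⟩ : ∃ i, j = i + 1 := ⟨j - 1, by omega⟩
    have h4 := Pool.Agent.TH181.MW.weyl' k N i ((a.val : ℝ) / P) ((b.val : ℝ) / P)
    have e : 2 * (s + 2 ^ (i + 1 - 1)) = 2 ^ (i + 1) + 2 * s := by
      rw [Nat.add_sub_cancel, pow_succ]; ring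
    rw [e, pow_add]
    calc _ ≤ ((2 * (N : ℝ) + 1) ^ (2 ^ (i + 1) - (i + 1) - 1) *
          (∑ l ∈ LS (Icc (-(N : ℤ)) N) (i + 1),
            TT k N ((a.val : ℝ) / P) ((b.val : ℝ) / P) l).re) *
              ‖sm k N ((a.val : ℝ) / P) ((b.val : ℝ) / P)‖ ^ (2 * s) :=
          mul_le_mul_of_nonneg_right h4 (by positivity)
      _ = _ := by ring
  have h4 : (P : ℝ) ^ 2 * (J (s + 2 ^ (j - 1)) k N : ℝ) ≤ (2 * (N : ℝ) + 1) ^ (2 ^ j - j - 1) *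
      ((P : ℝ) ^ 2 * ((((Lam N j) ×ˢ (tup s N ×ˢ tup s N)).filter
        (fun w => ph (fun n => n ^ k) w.1.1 w.1.2 + dk k w.2 = 0 ∧ dk 1 w.2 = 0)).card : ℝ)) := by
    rw [← h1, ← h2, mul_sum]
    refine sum_le_sum fun a _ => ?_
    rw [mul_sum]
    exact sum_le_sum fun b _ => h3 a b
  have h5 : (J (s + 2 ^ (j - 1)) k N : ℝ) ≤ (2 * (N : ℝ) + 1) ^ (2 ^ j - j - 1) *
      ((((Lam N j) ×ˢ (tup s N ×ˢ tup s N)).filter
        (fun w => ph (fun n => n ^ k) w.1.1 w.1.2 + dk k w.2 = 0 ∧ dk 1 w.2 = 0)).card : ℝ) := by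
    have hP2 : (0 : ℝ) < (P : ℝ) ^ 2 := by positivity
    refine le_of_mul_le_mul_left ?_ hP2
    calc _ ≤ _ := h4
      _ = _ := by ring
  refine h5.trans (mul_le_mul_of_nonneg_left ?_ (by positivity))
  -- counting
  set T := (tup s N ×ˢ tup s N).filter (fun z => dk 1 z = 0) with hT
  have h6 : ((Lam N j) ×ˢ (tup s N ×ˢ tup s N)).filter
      (fun w => ph (fun n => n ^ k) w.1.1 w.1.2 + dk k w.2 = 0 ∧ dk 1 w.2 = 0) ⊆
      T.biUnion fun z => ((Lam N j).filter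
        (fun v => ph (fun n => n ^ k) v.1 v.2 = -dk k z)).image fun v => (v, z) := by
    intro w hw
    rw [mem_filter, mem_product] at hw
    rw [mem_biUnion]
    refine ⟨w.2, mem_filter.2 ⟨hw.1.2, hw.2.2⟩, mem_image.2 ⟨w.1, mem_filter.2 ⟨hw.1.1, ?_⟩, rfl⟩⟩
    linarith [hw.2.1]
  have h7 : (((Lam N j) ×ˢ (tup s N ×ˢ tup s N)).filter
      (fun w => ph (fun n => n ^ k) w.1.1 w.1.2 + dk k w.2 = 0 ∧ dk 1 w.2 = 0)).card ≤
      ∑ z ∈ T, if dk k z = 0 then (j + k) * (2 * N + 1) ^ j else (2 * D) ^ j * k := by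
    refine (card_le_card h6).trans (card_biUnion_le.trans (sum_le_sum fun z hz => ?_))
    refine card_image_le.trans ?_
    split_ifs with h8
    · rw [h8, neg_zero]
      exact Pool.Agent.TH181.MW.Lam_zero k N j hjk
    · refine Pool.Agent.TH181.MW.Lam_nonzero k N j D hjk _ (neg_ne_zero.2 h8) (hD _ ?_ ?_)
      · rw [Int.natAbs_neg]
        exact Int.natAbs_pos.2 h8
      · rw [Int.natAbs_neg]
        have := dk_abs (k := k) z (mem_filter.1 hz).1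
        zify
        exact this
  have h8 : ∑ z ∈ T, (if dk k z = 0 then (j + k) * (2 * N + 1) ^ j else (2 * D) ^ j * k) ≤
      (j + k) * (2 * N + 1) ^ j * J s k N + (2 * D) ^ j * k * N ^ (2 * s - 1) := by
    rw [sum_ite, sum_const, sum_const, smul_eq_mul, smul_eq_mul]
    have h9 : (T.filter fun z => dk k z = 0).card = J s k N := by
      unfold Pool.Agent.TH181.MW.J
      congr 1
      rw [hT, filter_filter]
      refine filter_congr fun z _ => ?_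
      simp only [dk, pow_one]
      constructor
      · rintro ⟨h3, h4⟩
        exact ⟨by exact_mod_cast sub_eq_zero.1 h3, by exact_mod_cast sub_eq_zero.1 h4⟩
      · rintro ⟨h3, h4⟩
        rw [h3, h4]
        simp
    have h10 : (T.filter fun z => ¬ dk k z = 0).card ≤ N ^ (2 * s - 1) :=
      (card_filter_le _ _).trans (eq_sums s N hs)
    rw [h9]
    have := Nat.mul_le_mul_right ((2 * D) ^ j * k) h10
    calc _ ≤ J s k N * ((j + k) * (2 * N + 1) ^ j) + N ^ (2 * s - 1) * ((2 * D) ^ j * k) := by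
          omega
      _ = _ := by ring
  have h9 := h7.trans h8
  have h10 : ((((Lam N j) ×ˢ (tup s N ×ˢ tup s N)).filter
      (fun w => ph (fun n => n ^ k) w.1.1 w.1.2 + dk k w.2 = 0 ∧ dk 1 w.2 = 0)).card : ℝ) ≤
      (((j + k) * (2 * N + 1) ^ j * J s k N + (2 * D) ^ j * k * N ^ (2 * s - 1) : ℕ) : ℝ) := by
    exact_mod_cast h9
  refine h10.trans (le_of_eq ?_)
  push_cast
  ring

end Pool.Agent.Q39.MH
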