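import Pool.Agent.Q39.MH.Hua

set_option autoImplicit false

/-!
# The moments of order `2 ^ j + 2`
-/

namespace Pool.Agent.Q39.MH

open Finset
open Pool.Agent.TH181.MW (tup J)

lemma ext2 {f g : Fin 2 → ℕ} (h0 : f 0 = g 0) (h1 : f 1 = g 1) : f = g := by
  funext i
  fin_cases i
  · exact h0
  · exact h1

lemma four {k N : ℕ} (hk : 2 ≤ k) : J 2 k N ≤ 2 * N ^ 2 := by
  classical
  have key : ∀ z ∈ ((tup 2 N) ×ˢ (tup 2 N)).filter
      (fun z => ∑ i, z.1 i = ∑ i, z.2 i ∧ ∑ i, z.1 i ^ k = ∑ i, z.2 i ^ k),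
      z.1 ∈ tup 2 N ∧ ((z.2 0 = z.1 0 ∧ z.2 1 = z.1 1) ∨ (z.2 0 = z.1 1 ∧ z.2 1 = z.1 0)) := by
    intro z hz
    rw [mem_filter, mem_product, Fin.sum_univ_two, Fin.sum_univ_two, Fin.sum_univ_two,
      Fin.sum_univ_two] at hz
    refine ⟨hz.1.1, ?_⟩
    have h1 : 1 ≤ z.2 0 := by
      have := hz.1.2
      rw [Pool.Agent.TH181.MW.tup, Fintype.mem_piFinset] at this
      exact (mem_Icc.1 (this 0)).1
    have h5 := pair hk h1 hz.2.1.symm hz.2.2.symm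
    omega
  have h : (((tup 2 N) ×ˢ (tup 2 N)).filter
      (fun z => ∑ i, z.1 i = ∑ i, z.2 i ∧ ∑ i, z.1 i ^ k = ∑ i, z.2 i ^ k)).card ≤
      ((tup 2 N) ×ˢ (univ : Finset Bool)).card := by
    refine card_le_card_of_injOn (fun z => (z.1, decide (z.2 0 = z.1 0))) ?_ ?_
    · intro z hz
      rw [mem_coe] at hz
      rw [mem_coe, mem_product]
      exact ⟨(key z hz).1, mem_univ _⟩
    · intro z hz w hw hzw
      rw [mem_coe] at hz hw
      obtain ⟨-, k1⟩ := key z hz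
      obtain ⟨-, k2⟩ := key w hw
      simp only [Prod.mk.injEq, decide_eq_decide] at hzw
      obtain ⟨h1, h2⟩ := hzw
      have a0 : z.1 0 = w.1 0 := by rw [h1]
      have a1 : z.1 1 = w.1 1 := by rw [h1]
      refine Prod.ext h1 (ext2 ?_ ?_)
      · rcases k1 with ⟨b1, b2⟩ | ⟨b1, b2⟩ <;> rcases k2 with ⟨c1, c2⟩ | ⟨c1, c2⟩ <;> omega
      · rcases k1 with ⟨b1, b2⟩ | ⟨b1, b2⟩ <;> rcases k2 with ⟨c1, c2⟩ | ⟨c1, c2⟩ <;> omega
  unfold Pool.Agent.TH181.MW.J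
  refine h.trans (le_of_eq ?_)
  rw [card_product, tup_card]
  simp [mul_comm]

/-- divisors of the numbers up to `s N ^ k` -/
lemma div_le (s k : ℕ) (hs : 1 ≤ s) (hk : 1 ≤ k) (ε : ℝ) (hε : 0 < ε) : ∃ C : ℝ, 0 < C ∧
    ∀ N : ℕ, 1 ≤ N → ∀ m : ℕ, 1 ≤ m → m ≤ s * N ^ k →
      (m.divisors.card : ℝ) ≤ C * (N : ℝ) ^ ε := by
  have hk0 : (0 : ℝ) < k := by exact_mod_cast hk
  have hs0 : (0 : ℝ) < s := by exact_mod_cast hs
  obtain ⟨C, hC, hC2⟩ := Pool.Agent.Helper112.divisor_bound (ε / k) (by positivity)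
  refine ⟨C * (s : ℝ) ^ (ε / k), by positivity, fun N hN m hm hm2 => ?_⟩
  have hN0 : (0 : ℝ) < N := by exact_mod_cast hN
  refine (hC2 m hm).trans ?_
  have h1 : (m : ℝ) ^ (ε / k) ≤ ((s : ℝ) * (N : ℝ) ^ k) ^ (ε / k) := by
    apply Real.rpow_le_rpow (by positivity) _ (by positivity)
    exact_mod_cast hm2
  have h2 : ((s : ℝ) * (N : ℝ) ^ k) ^ (ε / k) = (s : ℝ) ^ (ε / k) * (N : ℝ) ^ ε := by
    rw [Real.mul_rpow hs0.le (by positivity), ← Real.rpow_natCast, ← Real.rpow_mul hN0.le]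
    congr 2
    field_simp
  rw [h2] at h1
  calc C * (m : ℝ) ^ (ε / k) ≤ C * ((s : ℝ) ^ (ε / k) * (N : ℝ) ^ ε) :=
        mul_le_mul_of_nonneg_left h1 hC.le
    _ = _ := by ring

/-- **Hua's inequality** for the degrees `1, k` and the moment of order `2 ^ j + 2` -/
theorem hua (k : ℕ) (hk : 3 ≤ k) (j : ℕ) (h1 : 1 ≤ j) (hjk : j ≤ k) : ∀ ε : ℝ, 0 < ε →
    ∃ C : ℝ, 0 < C ∧ ∀ N : ℕ, 1 ≤ N →
      (J (2 ^ (j - 1) + 1) k N : ℝ) ≤ C * (N : ℝ) ^ ((2 : ℝ) ^ j - j + 1 + ε) := by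
  rcases Nat.eq_or_lt_of_le h1 with h1 | h1
  · subst h1
    intro ε hε
    refine ⟨2, by norm_num, fun N hN => ?_⟩
    have hN1 : (1 : ℝ) ≤ N := by exact_mod_cast hN
    have h2 : (J 2 k N : ℝ) ≤ 2 * (N : ℝ) ^ 2 := by exact_mod_cast four (k := k) (N := N) (by omega)
    have h3 : (N : ℝ) ^ 2 ≤ (N : ℝ) ^ ((2 : ℝ) ^ 1 - (1 : ℕ) + 1 + ε) := by
      rw [← Real.rpow_natCast]
      apply Real.rpow_le_rpow_of_exponent_le hN1
      push_cast
      linarith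
    calc (J (2 ^ (1 - 1) + 1) k N : ℝ) = (J 2 k N : ℝ) := by norm_num
      _ ≤ 2 * (N : ℝ) ^ 2 := h2
      _ ≤ _ := by linarith
  · obtain ⟨i, rfl⟩ : ∃ i, j = i + 2 := ⟨j - 2, by omega⟩
    clear h1
    induction i with
    | zero =>
      intro ε hε
      obtain ⟨C, hC, h⟩ := six k (by omega) ε hε
      refine ⟨C, hC, fun N hN => ?_⟩
      have e1 : 2 ^ (0 + 2 - 1) + 1 = 3 := by norm_num
      have e2 : (2 : ℝ) ^ (0 + 2) - ((0 + 2 : ℕ) : ℝ) + 1 + ε = 3 + ε := by norm_num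
      rw [e1, e2]
      exact h N hN
    | succ i ih =>
      intro ε hε
      have hjk' : i + 2 < k := by omega
      obtain ⟨C, hC, h⟩ := ih (by omega) (by omega) ε hε
      set j : ℕ := i + 2 with hj
      set s : ℕ := 2 ^ (j - 1) + 1 with hs
      have hj0 : (0 : ℝ) < j := by
        have : 0 < j := by omega
        exact_mod_cast this
      have hs1 : 1 ≤ s := Nat.le_add_left 1 _
      obtain ⟨C', hC', h'⟩ := div_le s k hs1 (by omega) (ε / j) (by positivity)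
      have hss : s + 2 ^ (j - 1) = 2 ^ (i + 1 + 2 - 1) + 1 := by
        have : i + 1 + 2 - 1 = (j - 1) + 1 := by omega
        rw [hs, this, pow_succ]
        ring
      have h2s : 2 * s - 1 = 2 ^ j + 1 := by
        have : j = (j - 1) + 1 := by omega
        rw [hs]
        conv_rhs => rw [this, pow_succ]
        omega
      have hpow : j + 1 ≤ 2 ^ j := Nat.lt_two_pow_self
      refine ⟨3 ^ (2 ^ j - j - 1) * ((j + k) * 3 ^ j * C + (2 * (C' + 1)) ^ j * k), by positivity,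
        fun N hN => ?_⟩
      have hN1 : (1 : ℝ) ≤ N := by exact_mod_cast hN
      have hN0 : (0 : ℝ) < N := by linarith
      set D : ℕ := ⌊C' * (N : ℝ) ^ (ε / j)⌋₊ with hD
      have hst := step s k N j D hs1 (by omega) hjk' hN (fun m hm hm2 => Nat.le_floor
        (h' N hN m hm hm2))
      rw [hss, h2s] at hst
      have hJ := h N hN
      have h3N : 2 * (N : ℝ) + 1 ≤ 3 * N := by linarith
      have hNε : (1 : ℝ) ≤ (N : ℝ) ^ (ε / j) := Real.one_le_rpow hN1 (by positivity)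
      have hDle : (D : ℝ) ≤ (C' + 1) * (N : ℝ) ^ (ε / j) := by
        have : (D : ℝ) ≤ C' * (N : ℝ) ^ (ε / j) := Nat.floor_le (by positivity)
        nlinarith
      have hDj : (2 * (D : ℝ)) ^ j ≤ (2 * (C' + 1)) ^ j * (N : ℝ) ^ ε := by
        calc (2 * (D : ℝ)) ^ j ≤ (2 * ((C' + 1) * (N : ℝ) ^ (ε / j))) ^ j := by gcongr
          _ = (2 * (C' + 1)) ^ j * ((N : ℝ) ^ (ε / j)) ^ j := by
              rw [← mul_assoc, mul_pow]
          _ = (2 * (C' + 1)) ^ j * (N : ℝ) ^ ε := by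
              congr 1
              rw [← Real.rpow_natCast, ← Real.rpow_mul hN0.le]
              congr 1
              field_simp
      have e1 : (N : ℝ) ^ j * (N : ℝ) ^ ((2 : ℝ) ^ j - j + 1 + ε) =
          (N : ℝ) ^ ((2 : ℝ) ^ j + 1 + ε) := by
        rw [← Real.rpow_natCast, ← Real.rpow_add hN0]
        congr 1
        ring
      have e2 : (N : ℝ) ^ ε * (N : ℝ) ^ (2 ^ j + 1) = (N : ℝ) ^ ((2 : ℝ) ^ j + 1 + ε) := by
        rw [← Real.rpow_natCast, ← Real.rpow_add hN0]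
        congr 1
        push_cast
        ring
      have e3 : (N : ℝ) ^ (2 ^ j - j - 1) * (N : ℝ) ^ ((2 : ℝ) ^ j + 1 + ε) =
          (N : ℝ) ^ ((2 : ℝ) ^ (i + 1 + 2) - ((i + 1 + 2 : ℕ) : ℝ) + 1 + ε) := by
        rw [← Real.rpow_natCast, ← Real.rpow_add hN0]
        congr 1
        have e4 : ((2 ^ j - j - 1 : ℕ) : ℝ) = 2 ^ j - j - 1 := by
          rw [Nat.sub_sub, Nat.cast_sub hpow]
          push_cast
          ring
        rw [e4]
        have e5 : (2 : ℝ) ^ (i + 1 + 2) = 2 * 2 ^ j := by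
          rw [hj]; ring
        rw [e5, hj]
        push_cast
        ring
      calc (J (2 ^ (i + 1 + 2 - 1) + 1) k N : ℝ)
          ≤ (2 * (N : ℝ) + 1) ^ (2 ^ j - j - 1) *
            ((j + k) * (2 * (N : ℝ) + 1) ^ j * (J s k N : ℝ) +
              (2 * D) ^ j * k * (N : ℝ) ^ (2 ^ j + 1)) := hst
        _ ≤ (3 * (N : ℝ)) ^ (2 ^ j - j - 1) *
            ((j + k) * (3 * (N : ℝ)) ^ j * (C * (N : ℝ) ^ ((2 : ℝ) ^ j - j + 1 + ε)) +
              ((2 * (C' + 1)) ^ j * (N : ℝ) ^ ε) * k * (N : ℝ) ^ (2 ^ j + 1)) := by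
            gcongr
        _ = 3 ^ (2 ^ j - j - 1) * (N : ℝ) ^ (2 ^ j - j - 1) *
            ((j + k) * 3 ^ j * C * ((N : ℝ) ^ j * (N : ℝ) ^ ((2 : ℝ) ^ j - j + 1 + ε)) +
              (2 * (C' + 1)) ^ j * k * ((N : ℝ) ^ ε * (N : ℝ) ^ (2 ^ j + 1))) := by
            rw [mul_pow, mul_pow]; ring
        _ = 3 ^ (2 ^ j - j - 1) * ((j + k) * 3 ^ j * C + (2 * (C' + 1)) ^ j * k) *
            ((N : ℝ) ^ (2 ^ j - j - 1) * (N : ℝ) ^ ((2 : ℝ) ^ j + 1 + ε)) := by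
            rw [e1, e2]; ring
        _ = _ := by rw [e3]

end Pool.Agent.Q39.MH
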